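import Pool.Agent.K9h47.JM.Disp

/-!
# Configurations with one displaced point in Furstenberg systems (helper47; the file of Helper47/Law for functions which may vanish)
-/

set_option autoImplicit false

open Finset MeasureTheory Filter Topology

namespace Pool.Agent.K9h47.JM.Law

open Pool.Agent.Results.MP_4a7640_nt.DisplacedCubes (Val X shift seq IsFurstenbergSystem Aperiodic cube
  val_le mean_int)

lemma shift_iter (n : ℕ) (x : X) : (shift 1)^[n] x = shift (n : ℤ) x := by
  induction n with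
  | zero =>
    funext k
    simp [shift]
  | succ n ih =>
    rw [Function.iterate_succ_apply', ih]
    funext k
    unfold shift
    congr 1
    push_cast
    ring

lemma shift_cont (n : ℤ) : Continuous (shift n) := by
  unfold shift
  exact continuous_pi fun k => continuous_apply (k + n)

/-- Furstenberg systems are invariant under the shift -/
lemma mp_shift {f : ℕ → Val} {μ : Measure X} (hμ : IsFurstenbergSystem f μ) :
    MeasurePreserving (shift 1) μ μ := by
  obtain ⟨hprob, N, hN, hlim⟩ := hμ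
  refine ⟨(shift_cont 1).measurable, ?_⟩
  have : IsProbabilityMeasure (Measure.map (shift 1) μ) :=
    Measure.isProbabilityMeasure_map (shift_cont 1).measurable.aemeasurable
  apply ext_of_forall_integral_eq_of_IsFiniteMeasure
  intro φ
  rw [integral_map (shift_cont 1).measurable.aemeasurable φ.continuous.aestronglyMeasurable]
  set C : ℝ := ‖φ‖ + 1 with hC
  have hC0 : 0 < C := by positivity
  set ψ : X → ℝ := fun x => φ x / C with hψ
  have hψc : Continuous ψ := φ.continuous.div_const C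
  have hψ1 : ∀ x, |ψ x| ≤ 1 := by
    intro x
    rw [hψ]
    simp only
    rw [abs_div, abs_of_pos hC0, div_le_one hC0]
    have := φ.norm_coe_le_norm x
    rw [Real.norm_eq_abs] at this
    linarith
  have h1 := mean_int hN hlim ψ hψc hψ1
  have h2 := mean_int hN hlim (fun x => ψ (shift 1 x)) (hψc.comp (shift_cont 1)) (fun x => hψ1 _)
  have hb : Pool.Agent.Y956.CB.BC (fun n : ℕ => ((ψ (shift (n : ℤ) (seq f)) : ℝ) : ℂ)) :=
    ⟨1, fun n => by rw [Complex.norm_real, Real.norm_eq_abs]; exact hψ1 _⟩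
  have h3 := Pool.Agent.Y956.CM.mc_shift (Pool.Agent.Y956.CB.eeLM (Pool.Agent.Y956.CM.lmLM (Pool.Agent.Y956.CM.usq N)
      (Pool.Agent.Y956.CM.usq_le hN))) hb 1
  have h4 : (fun n : ℕ => ((ψ (shift 1 (shift (n : ℤ) (seq f))) : ℝ) : ℂ)) =
      fun n : ℕ => ((ψ (shift ((n + 1 : ℕ) : ℤ) (seq f)) : ℝ) : ℂ) := by
    funext n
    have h5 : shift 1 (shift (n : ℤ) (seq f)) = shift ((n + 1 : ℕ) : ℤ) (seq f) := by
      funext k
      unfold shift
      congr 1
      push_cast
      ring
    rw [h5]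
  rw [h4] at h2
  have h6 : ((∫ x, ψ (shift 1 x) ∂μ : ℝ) : ℂ) = ((∫ x, ψ x ∂μ : ℝ) : ℂ) := by
    rw [← h1, ← h2]
    exact h3
  have h7 : ∫ x, ψ (shift 1 x) ∂μ = ∫ x, ψ x ∂μ := by exact_mod_cast h6
  simp only [hψ] at h7
  rw [integral_div, integral_div] at h7
  field_simp at h7
  exact h7

lemma int_shift {f : ℕ → Val} {μ : Measure X} (hμ : IsFurstenbergSystem f μ) (n : ℕ) (Φ : X → ℝ)
    (hΦ : Continuous Φ) : ∫ x, Φ (shift (n : ℤ) x) ∂μ = ∫ x, Φ x ∂μ := by
  have h1 := ((mp_shift hμ).iterate n)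
  have h2 := integral_map (μ := μ) (φ := (shift 1)^[n]) h1.measurable.aemeasurable (f := Φ)
    (hΦ.aestronglyMeasurable)
  rw [h1.map_eq] at h2
  rw [h2]
  simp only [shift_iter]

/-- A configuration: points, coordinates, for each point a vertex of the cube, and displacements -/
structure Cf where
  P : Type
  C : Type
  fP : Fintype P
  dP : DecidableEq P
  fC : Fintype C
  dC : DecidableEq C
  τ : P → Finset C
  inj : Function.Injective τ
  ne : ∀ p, (τ p).Nonempty
  d : P → ℤ

attribute [instance] Cf.fP Cf.dP Cf.fC Cf.dC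

/-- the position of the point `p` -/
def Cf.L (c : Cf) (h : c.C → ℤ) (p : c.P) : ℤ := ∑ i ∈ c.τ p, h i + c.d p

/-- the product over the points -/
def Cf.pr (c : Cf) (h : c.C → ℤ) (x : X) : ℝ := ∏ p, (x (c.L h p) : ℝ)

/-- parameters of absolute value less than `H` -/
noncomputable def Box (C : Type) [Fintype C] [DecidableEq C] (H : ℕ) : Finset (C → ℤ) :=
  Fintype.piFinset fun _ => Ioo (-(H : ℤ)) H

/-- exactly one point is displaced -/
def Cf.Dis (c : Cf) : Prop := ∃ p₀, c.d p₀ ≠ 0 ∧ ∀ p, p ≠ p₀ → c.d p = 0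

lemma Cf.pr_cont (c : Cf) (h : c.C → ℤ) : Continuous (c.pr h) := by
  unfold Cf.pr
  fun_prop

lemma Cf.pr_le (c : Cf) (h : c.C → ℤ) (x : X) : |c.pr h x| ≤ 1 := by
  unfold Cf.pr
  rw [abs_prod]
  exact prod_le_one (fun _ _ => abs_nonneg _) fun _ _ => val_le _

section

variable {f : ℕ → Val} (hf : Pool.Agent.K9h47.JM.MultV f) (ha : Aperiodic f) {μ : Measure X} (hμ : IsFurstenbergSystem f μ)
include hf ha hμ

/-- signs -/
lemma signed (c : Cf) (p₀ : c.P) (h0 : c.d p₀ ≠ 0) (h1 : ∀ p, p ≠ p₀ → c.d p = 0) (σ : Finset c.C) :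
    Tendsto (fun H : ℕ => (1 / (H : ℝ) ^ (Fintype.card c.C)) * ∑ g ∈ Fintype.piFinset (fun _ : c.C => range H),
      |∫ x, c.pr (fun i => if i ∈ σ then -(g i : ℤ) else (g i : ℤ)) x ∂μ|) atTop (𝓝 0) := by
  classical
  set m := Fintype.card c.C with hm
  set e : c.C ≃ Fin m := Fintype.equivFin c.C with he
  have hm1 : 1 ≤ m := by
    obtain ⟨i, _⟩ := c.ne p₀
    exact Fintype.card_pos_iff.2 ⟨i⟩
  set T : c.P → Finset (Fin m) := fun p => (symmDiff (c.τ p) σ).map e.toEmbedding with hT
  have hTi : Function.Injective T := by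
    intro p q hpq
    have h2 := Finset.map_injective _ hpq
    exact c.inj (symmDiff_left_injective σ h2)
  have h2 := Pool.Agent.K9h47.JM.disp f hf ha μ hμ m hm1 (univ.image T) (T p₀)
    (c.d p₀) 0 h0
  refine h2.congr fun H => ?_
  congr 1
  -- reindexing
  refine Finset.sum_bij' (fun (h : Fin m → Fin H) _ => fun i : c.C => ((h (e i) : Fin H) : ℕ))
    (fun (g : c.C → ℕ) hg => fun j : Fin m => (⟨g (e.symm j), by
      have := Fintype.mem_piFinset.1 hg (e.symm j)
      exact mem_range.1 this⟩ : Fin H)) ?_ ?_ ?_ ?_ ?_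
  · intro h _
    rw [Fintype.mem_piFinset]
    intro i
    exact mem_range.2 (h (e i)).2
  · intro g hg
    exact mem_univ _
  · intro h _
    funext j
    simp
  · intro g hg
    funext i
    simp
  · intro h _
    set g : c.C → ℕ := fun i => ((h (e i) : Fin H) : ℕ) with hg
    set s : ℕ := ∑ i ∈ σ, g i with hs
    -- the positions
    have hL : ∀ p, c.L (fun i => if i ∈ σ then -(g i : ℤ) else (g i : ℤ)) p + (s : ℤ) =
        ∑ j ∈ T p, ((h j : ℕ) : ℤ) + c.d p := by
      intro p
      unfold Cf.L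
      have e1 : ∑ j ∈ T p, ((h j : ℕ) : ℤ) = ∑ i ∈ symmDiff (c.τ p) σ, (g i : ℤ) := by
        rw [hT]
        simp only [sum_map, Equiv.coe_toEmbedding]
        rfl
      have e2 : ∑ i ∈ symmDiff (c.τ p) σ, (g i : ℤ) =
          ∑ i ∈ c.τ p \ σ, (g i : ℤ) + ∑ i ∈ σ \ c.τ p, (g i : ℤ) := by
        rw [symmDiff_def, sup_eq_union, sum_union]
        exact disjoint_sdiff_sdiff
      have e3 : ∑ i ∈ c.τ p, (if i ∈ σ then -(g i : ℤ) else (g i : ℤ)) =
          ∑ i ∈ c.τ p \ σ, (g i : ℤ) - ∑ i ∈ c.τ p ∩ σ, (g i : ℤ) := by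
        rw [← sum_sdiff (inter_subset_left : c.τ p ∩ σ ⊆ c.τ p), sdiff_inter_self_left]
        rw [sub_eq_add_neg, ← sum_neg_distrib]
        congr 1
        · apply sum_congr rfl
          intro i hi
          rw [if_neg (mem_sdiff.1 hi).2]
        · apply sum_congr rfl
          intro i hi
          rw [if_pos (mem_inter.1 hi).2]
      have e4 : (s : ℤ) = ∑ i ∈ σ \ c.τ p, (g i : ℤ) + ∑ i ∈ c.τ p ∩ σ, (g i : ℤ) := by
        rw [hs]
        push_cast
        rw [← sum_sdiff (inter_subset_right : c.τ p ∩ σ ⊆ σ), sdiff_inter_self_right]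
      rw [e1, e2, e3, e4]
      ring
    congr 1
    rw [← int_shift hμ s _ (c.pr_cont _)]
    apply integral_congr_ae
    filter_upwards with x
    unfold Cf.pr cube shift
    rw [← mul_prod_erase univ _ (mem_univ p₀), mul_comm]
    have e5 : (univ.image T).erase (T p₀) = (univ.erase p₀).image T := by
      rw [image_erase hTi]
    rw [e5, prod_image (fun p _ q _ h => hTi h)]
    congr 1
    · rw [hL p₀, add_comm]
    · apply prod_congr rfl
      intro p hp
      rw [hL p, h1 p (mem_erase.1 hp).1, zero_add, add_zero]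

/-- **displaced configurations are small on average** -/
theorem box_small (c : Cf) (hc : c.Dis) :
    Tendsto (fun H : ℕ => (1 / (H : ℝ) ^ (Fintype.card c.C)) * ∑ h ∈ Box c.C H, |∫ x, c.pr h x ∂μ|)
      atTop (𝓝 0) := by
  classical
  obtain ⟨p₀, h0, h1⟩ := hc
  have h2 : Tendsto (fun H : ℕ => ∑ σ : Finset c.C, (1 / (H : ℝ) ^ (Fintype.card c.C)) *
      ∑ g ∈ Fintype.piFinset (fun _ : c.C => range H),
      |∫ x, c.pr (fun i => if i ∈ σ then -(g i : ℤ) else (g i : ℤ)) x ∂μ|) atTop (𝓝 0) := by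
    have h3 := tendsto_finsetSum (univ : Finset (Finset c.C)) fun σ _ => signed hf ha hμ c p₀ h0 h1 σ
    rw [sum_const_zero] at h3
    exact h3
  refine squeeze_zero (fun H => by positivity) (fun H => ?_) h2
  rw [← mul_sum]
  apply mul_le_mul_of_nonneg_left _ (by positivity)
  -- the map from signed parameters
  set sg : (Finset c.C) × (c.C → ℕ) → c.C → ℤ := fun q i => if i ∈ q.1 then -(q.2 i : ℤ) else (q.2 i : ℤ) with hsg
  set j : (c.C → ℤ) → (Finset c.C) × (c.C → ℕ) := fun h => (univ.filter fun i => h i < 0, fun i => (h i).natAbs) with hj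
  have hsj : ∀ h, sg (j h) = h := by
    intro h
    funext i
    simp only [hsg, hj, mem_filter, mem_univ, true_and]
    split_ifs with h5
    · omega
    · omega
  have e1 : ∑ h ∈ Box c.C H, |∫ x, c.pr h x ∂μ| = ∑ q ∈ (Box c.C H).image j, |∫ x, c.pr (sg q) x ∂μ| := by
    rw [sum_image]
    · apply sum_congr rfl
      intro h _
      rw [hsj]
    · intro h _ h' _ hh
      rw [← hsj h, ← hsj h', hh]
  have e2 : ∑ σ : Finset c.C, ∑ g ∈ Fintype.piFinset (fun _ : c.C => range H),
      |∫ x, c.pr (fun i => if i ∈ σ then -(g i : ℤ) else (g i : ℤ)) x ∂μ| =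
      ∑ q ∈ (univ : Finset (Finset c.C)) ×ˢ Fintype.piFinset (fun _ : c.C => range H), |∫ x, c.pr (sg q) x ∂μ| := by
    rw [sum_product]
  rw [e1, e2]
  apply sum_le_sum_of_subset_of_nonneg
  · intro q hq
    obtain ⟨h, hh, rfl⟩ := mem_image.1 hq
    unfold Box at hh
    rw [Fintype.mem_piFinset] at hh
    rw [mem_product]
    refine ⟨mem_univ _, ?_⟩
    rw [Fintype.mem_piFinset]
    intro i
    have := mem_Ioo.1 (hh i)
    rw [mem_range]
    simp only [hj]
    omega
  · intro _ _ _
    exact abs_nonneg _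

end

end Pool.Agent.K9h47.JM.Law
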