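import Pool.Agent.K9h47.JM.Law.Cube

/-!
# Averages over configurations (helper47; the file of Helper47/Law for functions which may vanish)
-/

set_option autoImplicit false

open Finset MeasureTheory Filter Topology

namespace Pool.Agent.K9h47.JM.Law

open Pool.Agent.Results.MP_4a7640_nt.DisplacedCubes (Val X shift seq IsFurstenbergSystem Aperiodic cube
  val_le mean_int)

/-- average over a configuration with weights -/
noncomputable def Tm (c : Cf) (w : ℕ → (c.C → ℤ) → ℝ) (H : ℕ) (x : X) : ℝ :=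
  (1 / (H : ℝ) ^ (Fintype.card c.C)) * ∑ h ∈ Box c.C H, w H h * c.pr h x

/-- undisplaced terms -/
def UT : Set (ℕ → X → ℝ) := {M | ∃ (c : Cf) (w : ℕ → (c.C → ℤ) → ℝ), (∀ H h, |w H h| ≤ 1) ∧ (∀ p, c.d p = 0) ∧
  M = Tm c w}

/-- displaced terms -/
def DT : Set (ℕ → X → ℝ) := {M | ∃ (c : Cf) (w : ℕ → (c.C → ℤ) → ℝ), (∀ H h, |w H h| ≤ 1) ∧ c.Dis ∧ M = Tm c w}

/-- product of configurations -/
def Cf.mul (a b : Cf) : Cf where
  P := a.P ⊕ b.P
  C := a.C ⊕ b.C
  fP := inferInstance
  dP := inferInstance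
  fC := inferInstance
  dC := inferInstance
  τ := Sum.elim (fun p => (a.τ p).map Function.Embedding.inl) (fun p => (b.τ p).map Function.Embedding.inr)
  inj := by
    intro p q h
    rcases p with p | p <;> rcases q with q | q
    · simp only [Sum.elim_inl] at h
      rw [a.inj (Finset.map_injective _ h)]
    · exfalso
      simp only [Sum.elim_inl, Sum.elim_inr] at h
      obtain ⟨i, hi⟩ := a.ne p
      have h1 : (Sum.inl i : a.C ⊕ b.C) ∈ (b.τ q).map Function.Embedding.inr := by
        rw [← h]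
        exact mem_map.2 ⟨i, hi, rfl⟩
      obtain ⟨j, _, hj⟩ := mem_map.1 h1
      exact Sum.inr_ne_inl hj
    · exfalso
      simp only [Sum.elim_inl, Sum.elim_inr] at h
      obtain ⟨i, hi⟩ := b.ne p
      have h1 : (Sum.inr i : a.C ⊕ b.C) ∈ (a.τ q).map Function.Embedding.inl := by
        rw [← h]
        exact mem_map.2 ⟨i, hi, rfl⟩
      obtain ⟨j, _, hj⟩ := mem_map.1 h1
      exact Sum.inl_ne_inr hj
    · simp only [Sum.elim_inr] at h
      rw [b.inj (Finset.map_injective _ h)]
  ne := by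
    intro p
    rcases p with p | p
    · exact (a.ne p).map
    · exact (b.ne p).map
  d := Sum.elim a.d b.d

lemma mul_pr (a b : Cf) (h : a.C ⊕ b.C → ℤ) (x : X) :
    (a.mul b).pr h x = a.pr (fun i => h (Sum.inl i)) x * b.pr (fun i => h (Sum.inr i)) x := by
  have e1 : (a.mul b).pr h x = ∏ p : a.P ⊕ b.P, (x ((a.mul b).L h p) : ℝ) := rfl
  rw [e1, Fintype.prod_sum_type]
  have e2 : ∀ p : a.P, (a.mul b).L h (Sum.inl p) = a.L (fun i => h (Sum.inl i)) p := by
    intro p
    show ∑ i ∈ (a.τ p).map Function.Embedding.inl, h i + a.d p = _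
    rw [sum_map]
    rfl
  have e3 : ∀ p : b.P, (a.mul b).L h (Sum.inr p) = b.L (fun i => h (Sum.inr i)) p := by
    intro p
    show ∑ i ∈ (b.τ p).map Function.Embedding.inr, h i + b.d p = _
    rw [sum_map]
    rfl
  simp only [e2, e3]
  rfl

lemma tm_mul (a b : Cf) (v : ℕ → (a.C → ℤ) → ℝ) (w : ℕ → (b.C → ℤ) → ℝ) (H : ℕ) (x : X) :
    Tm a v H x * Tm b w H x =
      Tm (a.mul b) (fun H h => v H (fun i => h (Sum.inl i)) * w H (fun i => h (Sum.inr i))) H x := by
  unfold Tm
  have e0 : Fintype.card (a.mul b).C = Fintype.card a.C + Fintype.card b.C := by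
    show Fintype.card (a.C ⊕ b.C) = _
    exact Fintype.card_sum
  rw [e0, pow_add]
  have e1 : (∑ h ∈ Box a.C H, v H h * a.pr h x) * (∑ h ∈ Box b.C H, w H h * b.pr h x) =
      ∑ h ∈ Box (a.mul b).C H, (v H (fun i => h (Sum.inl i)) * w H (fun i => h (Sum.inr i))) * (a.mul b).pr h x := by
    rw [sum_mul_sum, ← sum_product']
    refine sum_nbij' (fun q : (a.C → ℤ) × (b.C → ℤ) => (Sum.elim q.1 q.2 : a.C ⊕ b.C → ℤ))
      (fun h => (fun i => h (Sum.inl i), fun i => h (Sum.inr i))) ?_ ?_ ?_ ?_ ?_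
    · intro q hq
      rw [mem_product] at hq
      unfold Box at hq ⊢
      rw [Fintype.mem_piFinset, Fintype.mem_piFinset] at hq
      refine Fintype.mem_piFinset.2 fun i => ?_
      rcases i with i | i
      · exact hq.1 i
      · exact hq.2 i
    · intro h hh
      unfold Box at hh
      rw [Fintype.mem_piFinset] at hh
      rw [mem_product]
      unfold Box
      rw [Fintype.mem_piFinset, Fintype.mem_piFinset]
      exact ⟨fun i => hh (Sum.inl i), fun i => hh (Sum.inr i)⟩
    · intro q _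
      rfl
    · intro h _
      funext i
      rcases i with i | i <;> rfl
    · intro q _
      rw [mul_pr]
      simp only [Sum.elim_inl, Sum.elim_inr]
      ring
  rw [← e1]
  ring

lemma tm_cont (c : Cf) (w : ℕ → (c.C → ℤ) → ℝ) (H : ℕ) : Continuous (Tm c w H) := by
  unfold Tm
  refine continuous_const.mul (continuous_finsetSum _ fun h _ => continuous_const.mul (c.pr_cont h))

lemma box_card (C : Type) [Fintype C] [DecidableEq C] (H : ℕ) : ((Box C H).card : ℝ) ≤ (2 * (H : ℝ)) ^ (Fintype.card C) := by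
  unfold Box
  rw [Fintype.card_piFinset, prod_const, card_univ, Int.card_Ioo]
  push_cast
  apply pow_le_pow_left₀ (Nat.cast_nonneg _)
  have h1 : ((H : ℤ) - -(H : ℤ) - 1).toNat ≤ 2 * H := by omega
  exact_mod_cast h1

lemma tm_le (c : Cf) (w : ℕ → (c.C → ℤ) → ℝ) (hw : ∀ H h, |w H h| ≤ 1) (H : ℕ) (x : X) :
    |Tm c w H x| ≤ 2 ^ (Fintype.card c.C) := by
  unfold Tm
  rw [abs_mul, abs_of_nonneg (by positivity)]
  have h1 : |∑ h ∈ Box c.C H, w H h * c.pr h x| ≤ (2 * (H : ℝ)) ^ (Fintype.card c.C) := by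
    refine (abs_sum_le_sum_abs _ _).trans ?_
    refine (sum_le_card_nsmul _ _ 1 fun h _ => ?_).trans ?_
    · rw [abs_mul]
      exact mul_le_one₀ (hw H h) (abs_nonneg _) (c.pr_le h x)
    · rw [nsmul_eq_mul, mul_one]
      exact box_card c.C H
  rcases Nat.eq_zero_or_pos H with h0 | h0
  · subst h0
    rcases Nat.eq_zero_or_pos (Fintype.card c.C) with h2 | h2
    · rw [h2] at h1 ⊢
      simpa using h1
    · simp only [Nat.cast_zero]
      rw [zero_pow h2.ne', div_zero, zero_mul]
      positivity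
  · have hH : (0 : ℝ) < H := by exact_mod_cast h0
    rw [mul_pow] at h1
    rw [one_div, inv_mul_le_iff₀ (by positivity), mul_comm]
    exact h1

section

variable {f : ℕ → Val} (hf : Pool.Agent.K9h47.JM.MultV f) (ha : Aperiodic f) {μ : Measure X} (hμ : IsFurstenbergSystem f μ)
include hf ha hμ

theorem dt_small {M : ℕ → X → ℝ} (hM : M ∈ DT) : Tendsto (fun H : ℕ => ∫ x, M H x ∂μ) atTop (𝓝 0) := by
  classical
  obtain ⟨c, w, hw, hc, rfl⟩ := hM
  have hprob : IsProbabilityMeasure μ := hμ.1
  have h1 := box_small hf ha hμ c hc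
  refine squeeze_zero_norm (fun H => ?_) h1
  unfold Tm
  rw [integral_const_mul, integral_finsetSum _ (fun h _ => ?_), Real.norm_eq_abs, abs_mul,
    abs_of_nonneg (by positivity)]
  · apply mul_le_mul_of_nonneg_left _ (by positivity)
    refine (abs_sum_le_sum_abs _ _).trans (sum_le_sum fun h _ => ?_)
    rw [integral_const_mul, abs_mul]
    exact mul_le_of_le_one_left (abs_nonneg _) (hw H h)
  · apply Integrable.const_mul
    exact Integrable.of_bound (c.pr_cont h).aestronglyMeasurable 1
      (Eventually.of_forall fun x => by rw [Real.norm_eq_abs]; exact c.pr_le h x)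

/-- terms in the span of the displaced terms -/
theorem span_small {M : ℕ → X → ℝ} (hM : M ∈ Submodule.span ℝ DT) :
    (∀ H, Continuous (M H)) ∧ (∃ C : ℝ, ∀ H x, |M H x| ≤ C) ∧
      Tendsto (fun H : ℕ => ∫ x, M H x ∂μ) atTop (𝓝 0) := by
  have hprob : IsProbabilityMeasure μ := hμ.1
  induction hM using Submodule.span_induction with
  | mem M hM =>
    refine ⟨?_, ?_, dt_small hf ha hμ hM⟩
    · obtain ⟨c, w, hw, hc, rfl⟩ := hM
      exact tm_cont c w
    · obtain ⟨c, w, hw, hc, rfl⟩ := hM
      exact ⟨_, tm_le c w hw⟩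
  | zero =>
    refine ⟨fun H => continuous_const, ⟨0, fun H x => by simp⟩, ?_⟩
    simp
  | add M M' _ _ h h' =>
    obtain ⟨h1, ⟨C, h2⟩, h3⟩ := h
    obtain ⟨h1', ⟨C', h2'⟩, h3'⟩ := h'
    refine ⟨fun H => (h1 H).add (h1' H), ⟨C + C', fun H x => (abs_add_le _ _).trans (add_le_add (h2 H x) (h2' H x))⟩, ?_⟩
    have h4 := h3.add h3'
    rw [add_zero] at h4
    refine h4.congr fun H => ?_
    rw [← integral_add]
    · rfl
    · exact Integrable.of_bound (h1 H).aestronglyMeasurable C
        (Eventually.of_forall fun x => by rw [Real.norm_eq_abs]; exact h2 H x)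
    · exact Integrable.of_bound (h1' H).aestronglyMeasurable C'
        (Eventually.of_forall fun x => by rw [Real.norm_eq_abs]; exact h2' H x)
  | smul a M _ h =>
    obtain ⟨h1, ⟨C, h2⟩, h3⟩ := h
    refine ⟨fun H => continuous_const.mul (h1 H), ⟨|a| * C, fun H x => ?_⟩, ?_⟩
    · show |a * M H x| ≤ _
      rw [abs_mul]
      exact mul_le_mul_of_nonneg_left (h2 H x) (abs_nonneg _)
    · have h4 := h3.const_mul a
      rw [mul_zero] at h4
      refine h4.congr fun H => ?_
      rw [← integral_const_mul]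
      rfl

end

/-- multiplication with undisplaced terms -/
theorem span_mul {Q : ℕ → X → ℝ} (hQ : Q ∈ UT) {M : ℕ → X → ℝ} (hM : M ∈ Submodule.span ℝ DT) :
    (fun H x => Q H x * M H x) ∈ Submodule.span ℝ DT := by
  induction hM using Submodule.span_induction with
  | mem M hM =>
    apply Submodule.subset_span
    obtain ⟨a, v, hv, ha, rfl⟩ := hQ
    obtain ⟨c, w, hw, ⟨p₀, h0, h1⟩, rfl⟩ := hM
    refine ⟨a.mul c, fun H h => v H (fun i => h (Sum.inl i)) * w H (fun i => h (Sum.inr i)), fun H h => ?_,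
      ⟨Sum.inr p₀, h0, fun p hp => ?_⟩, ?_⟩
    · rw [abs_mul]
      exact mul_le_one₀ (hv _ _) (abs_nonneg _) (hw _ _)
    · rcases p with p | p
      · exact ha p
      · exact h1 p (fun h => hp (by rw [h]))
    · funext H x
      exact tm_mul a c v w H x
  | zero =>
    have : (fun (H : ℕ) (x : X) => Q H x * (0 : ℕ → X → ℝ) H x) = 0 := by
      funext H x
      simp
    rw [this]
    exact Submodule.zero_mem _
  | add M M' _ _ h h' =>
    have : (fun (H : ℕ) (x : X) => Q H x * (M + M') H x) = (fun H x => Q H x * M H x) + fun H x => Q H x * M' H x := by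
      funext H x
      simp only [Pi.add_apply]
      ring
    rw [this]
    exact Submodule.add_mem _ h h'
  | smul a M _ h =>
    have : (fun (H : ℕ) (x : X) => Q H x * (a • M) H x) = a • (fun H x => Q H x * M H x) := by
      funext H x
      simp only [Pi.smul_apply, smul_eq_mul]
      ring
    rw [this]
    exact Submodule.smul_mem _ _ h

/-- undisplaced terms, bounded by one -/
def UT1 : Set (ℕ → X → ℝ) := {W | W ∈ UT ∧ ∀ H x, |W H x| ≤ 1}

/-- continuous functions of undisplaced terms -/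
theorem stat_small {f : ℕ → Val} (hf : Pool.Agent.K9h47.JM.MultV f) (ha : Aperiodic f) {μ : Measure X} (hμ : IsFurstenbergSystem f μ)
    {r : ℕ} (W : Fin r → ℕ → X → ℝ) (hW : ∀ j, W j ∈ UT1) (Ψ : C(Fin r → ℝ, ℝ)) {M : ℕ → X → ℝ}
    (hM : M ∈ Submodule.span ℝ DT) :
    Tendsto (fun H : ℕ => ∫ x, Ψ (fun j => W j H x) * M H x ∂μ) atTop (𝓝 0) := by
  classical
  have hprob : IsProbabilityMeasure μ := hμ.1
  -- the cube
  set K : Set (Fin r → ℝ) := Set.Icc (fun _ => -1) (fun _ => 1) with hK
  have hKc : IsCompact K := isCompact_Icc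
  have : CompactSpace K := isCompact_iff_compactSpace.1 hKc
  have hmem : ∀ H x, (fun j => W j H x) ∈ K := by
    intro H x
    rw [hK, Set.mem_Icc]
    constructor
    · intro j
      exact (abs_le.1 ((hW j).2 H x)).1
    · intro j
      exact (abs_le.1 ((hW j).2 H x)).2
  set pt : ℕ → X → K := fun H x => ⟨fun j => W j H x, hmem H x⟩ with hpt
  set co : Fin r → C(K, ℝ) := fun j => ⟨fun z => z.1 j, (continuous_apply j).comp continuous_subtype_val⟩ with hco
  set A : Subalgebra ℝ C(K, ℝ) := Algebra.adjoin ℝ (Set.range co) with hA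
  have hdense : A.topologicalClosure = ⊤ := by
    apply ContinuousMap.subalgebra_topologicalClosure_eq_top_of_separatesPoints
    intro y z hyz
    obtain ⟨j, hj⟩ := Function.ne_iff.1 (fun h => hyz (Subtype.ext h))
    exact ⟨co j, ⟨co j, Algebra.subset_adjoin ⟨j, rfl⟩, rfl⟩, hj⟩
  -- polynomials
  have hpoly : ∀ q ∈ A, ∀ M : ℕ → X → ℝ, M ∈ Submodule.span ℝ DT →
      (fun H x => q (pt H x) * M H x) ∈ Submodule.span ℝ DT := by
    intro q hq
    induction hq using Algebra.adjoin_induction with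
    | mem q hq =>
      obtain ⟨j, rfl⟩ := hq
      intro M hM
      exact span_mul (hW j).1 hM
    | algebraMap c =>
      intro M hM
      have : (fun (H : ℕ) (x : X) => (algebraMap ℝ C(K, ℝ) c) (pt H x) * M H x) = c • M := by
        funext H x
        rfl
      rw [this]
      exact Submodule.smul_mem _ _ hM
    | add q q' _ _ h h' =>
      intro M hM
      have : (fun (H : ℕ) (x : X) => (q + q') (pt H x) * M H x) =
          (fun H x => q (pt H x) * M H x) + fun H x => q' (pt H x) * M H x := by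
        funext H x
        simp only [Pi.add_apply, ContinuousMap.add_apply]
        ring
      rw [this]
      exact Submodule.add_mem _ (h M hM) (h' M hM)
    | mul q q' _ _ h h' =>
      intro M hM
      have h1 := h _ (h' M hM)
      have : (fun (H : ℕ) (x : X) => (q * q') (pt H x) * M H x) =
          fun H x => q (pt H x) * (q' (pt H x) * M H x) := by
        funext H x
        simp only [ContinuousMap.mul_apply]
        ring
      rw [this]
      exact h1
  -- approximation
  obtain ⟨hMc, ⟨C, hMC⟩, -⟩ := span_small hf ha hμ hM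
  have hC0 : 0 ≤ C := (abs_nonneg _).trans (hMC 0 (fun _ => ⟨0, by simp⟩))
  set ΨK : C(K, ℝ) := ⟨fun z => Ψ z.1, Ψ.continuous.comp continuous_subtype_val⟩ with hΨK
  have hcl : ΨK ∈ A.topologicalClosure := by
    rw [hdense]
    exact Algebra.mem_top
  have hWc : ∀ j H, Continuous (W j H) := by
    intro j H
    obtain ⟨⟨c, w, _, _, he⟩, -⟩ := hW j
    rw [he]
    exact tm_cont c w H
  rw [Metric.tendsto_atTop]
  intro ε hε
  have h1 : ∃ q ∈ A, dist ΨK q < ε / (2 * (C + 1)) := by
    have h2 : ΨK ∈ closure (A : Set C(K, ℝ)) := hcl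
    rw [Metric.mem_closure_iff] at h2
    exact h2 _ (by positivity)
  obtain ⟨q, hqA, hq⟩ := h1
  have h3 := span_small hf ha hμ (hpoly q hqA M hM)
  obtain ⟨N, hN⟩ := (Metric.tendsto_atTop.1 h3.2.2) (ε / 2) (by positivity)
  refine ⟨N, fun H hH => ?_⟩
  have h4 := hN H hH
  rw [Real.dist_eq, sub_zero] at h4 ⊢
  have hi1 : Integrable (fun x => Ψ (fun j => W j H x) * M H x) μ := by
    refine Integrable.of_bound ((Ψ.continuous.comp (continuous_pi fun j => hWc j H)).mul (hMc H)).aestronglyMeasurable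
      (‖ΨK‖ * C) (Eventually.of_forall fun x => ?_)
    rw [norm_mul]
    refine mul_le_mul ?_ ?_ (norm_nonneg _) (norm_nonneg _)
    · exact ΨK.norm_coe_le_norm (pt H x)
    · rw [Real.norm_eq_abs]
      exact hMC H x
  have hi2 : Integrable (fun x => q (pt H x) * M H x) μ := by
    obtain ⟨C', hC'⟩ := h3.2.1
    exact Integrable.of_bound (h3.1 H).aestronglyMeasurable C' (Eventually.of_forall fun x => by
      rw [Real.norm_eq_abs]
      exact hC' H x)
  have h5 : |∫ x, Ψ (fun j => W j H x) * M H x ∂μ - ∫ x, q (pt H x) * M H x ∂μ| ≤ ε / (2 * (C + 1)) * C := by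
    rw [← integral_sub hi1 hi2, ← Real.norm_eq_abs]
    refine (norm_integral_le_of_norm_le_const (C := ε / (2 * (C + 1)) * C) (Eventually.of_forall fun x => ?_)).trans ?_
    · rw [← sub_mul, norm_mul]
      refine mul_le_mul ?_ ?_ (norm_nonneg _) (by positivity)
      · have h6 := ContinuousMap.dist_apply_le_dist (f := ΨK) (g := q) (pt H x)
        rw [Real.dist_eq] at h6
        rw [Real.norm_eq_abs]
        exact h6.trans hq.le
      · rw [Real.norm_eq_abs]
        exact hMC H x
    · rw [probReal_univ, mul_one]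
  have h6 : ε / (2 * (C + 1)) * C ≤ ε / 2 := by
    rw [div_mul_eq_mul_div, div_le_div_iff₀ (by positivity) (by norm_num)]
    nlinarith
  have h7 := abs_sub_abs_le_abs_sub (∫ x, Ψ (fun j => W j H x) * M H x ∂μ) (∫ x, q (pt H x) * M H x ∂μ)
  linarith

end Pool.Agent.K9h47.JM.Law
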